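import Pool.Agent.Helper51.BS.Cover
import Pool.Agent.Helper67.BS.Small

/-!
# A triangulation of the cube is not smaller than a smallest cover by vertex simplices
-/

set_option autoImplicit false

open MeasureTheory Set Helper67.Cube

namespace Helper51.BS

variable {d : ℕ}

lemma det_edge_ne_zero {w : Fin (d+1) → Fin d → ℝ} (hw : AffineIndependent ℝ w) :
    (edge w).det ≠ 0 := by
  rw [← det_bord]
  intro h0
  obtain ⟨t, ht0, ht⟩ := Matrix.exists_vecMul_eq_zero_iff.2 h0
  apply ht0
  have h1 : ∑ i, t i = 0 := by
    have := congrFun ht 0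
    simpa [Matrix.vecMul, dotProduct, bord] using this
  have h2 : ∑ i, t i • w i = 0 := by
    funext k
    have := congrFun ht k.succ
    simpa [Matrix.vecMul, dotProduct, bord] using this
  rw [affineIndependent_iff_of_fintype] at hw
  funext i
  refine hw t h1 ?_ i
  rw [Finset.weightedVSub_eq_linear_combination _ h1]
  exact h2

/-- From a triangulation of the cube with `N` members (any vertices) one obtains a cover by at
most `N` vertex simplices. -/
theorem vertex_cover_of_triangulation {N : ℕ} {W : Fin N → Fin (d+1) → Fin d → ℝ}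
    (hW : IsTriangulation W) : ∃ N' ≤ N, ∃ W' : Fin N' → Fin (d+1) → Fin d → ℝ,
      IsCover W' ∧ IsVertexFamily W' := by
  have hlab : ∀ (v : Fin d → ℝ) j, lab v j = 0 ∨ lab v j = 1 := by
    intro v j
    unfold lab
    split_ifs <;> simp
  have hL : ∀ s, InUnit (fun i => lab (W s i)) := by
    intro s i j
    change 0 ≤ lab (W s i) j ∧ lab (W s i) j ≤ 1
    rcases hlab (W s i) j with h | h <;> rw [h] <;> norm_num
  obtain ⟨N', hN, W', hc, hv⟩ := cover_of_small (L := fun s i => lab (W s i)) hL
    (fun s => det_edge_ne_zero (hW.1.1.1 s)) (Helper67.BS.small hW)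
  refine ⟨N', hN, W', hc, fun k i j => ?_⟩
  obtain ⟨s, hs⟩ := hv k
  rw [hs]
  exact hlab _ _

end Helper51.BS
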