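import Pool.Agent.Helper51.BS.Ident

/-!
# The positively oriented images cover the cube
-/

set_option autoImplicit false

open MeasureTheory Set Helper67.Cube Filter Topology

namespace Helper51.BS

variable {d : ℕ}

lemma cube_pi (d : ℕ) : cube d = Set.pi univ (fun _ : Fin d => Icc (0 : ℝ) 1) := by
  ext x
  simp only [cube, mem_ofPred_eq, Set.mem_pi, mem_univ, true_implies, mem_Icc]

lemma closure_interior_cube (d : ℕ) : closure (interior (cube d)) = cube d := by
  rw [cube_pi, interior_pi_set finite_univ, closure_pi_set]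
  simp

lemma sum_sq_le {y y0 : Fin d → ℝ} (hy : y ∈ cube d) (hy0 : y0 ∈ cube d) :
    ∑ j, (y j - y0 j) ^ 2 ≤ d := by
  have : ∑ j, (y j - y0 j) ^ 2 ≤ ∑ _j : Fin d, (1 : ℝ) := by
    refine Finset.sum_le_sum fun j _ => ?_
    have h1 := hy j
    have h2 := hy0 j
    nlinarith
  simpa using this

theorem covered {N : ℕ} {W L : Fin N → Fin (d+1) → Fin d → ℝ} (hL : ∀ s, InUnit (L s))
    (hd : ∀ s, (edge (W s)).det ≠ 0) (hs : Small W L) {y0 : Fin d → ℝ} (hy0 : y0 ∈ cube d) :
    ∃ s, 0 < sg (W s) * (edge (L s)).det ∧ y0 ∈ body (L s) := by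
  by_contra hcon
  push Not at hcon
  set c : Fin N → ℝ := fun s => sg (W s) * (edge (L s)).det with hc
  -- a ball free of the positive bodies
  obtain ⟨r, hr0, hr1, hr⟩ : ∃ r : ℝ, 0 < r ∧ r ≤ 1 ∧ ∀ s, 0 < c s → ∀ y ∈ body (L s),
      r ^ 2 ≤ ∑ j, (y j - y0 j) ^ 2 := by
    have hcl : IsClosed (⋃ s ∈ {s | 0 < c s}, body (L s)) :=
      (toFinite {s | 0 < c s}).isClosed_biUnion fun s _ => isClosed_body (L s)
    have hy : y0 ∈ (⋃ s ∈ {s | 0 < c s}, body (L s))ᶜ := by
      simp only [mem_compl_iff, mem_iUnion, not_exists]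
      intro s hs1 h
      exact hcon s hs1 h
    obtain ⟨r, hr, hsub⟩ := Metric.isOpen_iff.mp hcl.isOpen_compl y0 hy
    refine ⟨min r 1, lt_min hr one_pos, min_le_right _ _, ?_⟩
    intro s hs1 y hy1
    by_contra hlt
    push Not at hlt
    have hm : 0 < min r 1 := lt_min hr one_pos
    have h1 : dist y y0 < min r 1 := by
      rw [dist_pi_lt_iff hm]
      intro j
      rw [Real.dist_eq]
      have h2 : (y j - y0 j) ^ 2 ≤ ∑ j, (y j - y0 j) ^ 2 :=
        Finset.single_le_sum (f := fun j => (y j - y0 j) ^ 2) (fun j _ => sq_nonneg _)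
          (Finset.mem_univ j)
      exact abs_lt_of_sq_lt_sq (lt_of_le_of_lt h2 hlt) hm.le
    have h3 : y ∈ Metric.ball y0 r := lt_of_lt_of_le h1 (min_le_left _ _)
    refine hsub h3 ?_
    simp only [mem_iUnion]
    exact ⟨s, hs1, hy1⟩
  set κ : ℝ := 1 / (d + 1) with hκ
  have hd1 : (0 : ℝ) < d + 1 := by positivity
  have hκ0 : 0 < κ := by positivity
  have hκ1 : κ ≤ 1 := by
    rw [hκ, div_le_one hd1]
    have : (0 : ℝ) ≤ d := Nat.cast_nonneg d
    linarith
  set α : ℝ := 1 - κ * r ^ 2 with hα
  set β : ℝ := 1 - κ * (r ^ 2 / 4) with hβ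
  have hr2 : 0 < r ^ 2 := by positivity
  have hr21 : r ^ 2 ≤ 1 := by nlinarith
  have hα0 : 0 ≤ α := by rw [hα]; nlinarith
  have hαβ : α < β := by rw [hα, hβ]; nlinarith
  have hβ0 : 0 < β := lt_of_le_of_lt hα0 hαβ
  have hq0 : ∀ y ∈ cube d, 0 ≤ 1 - κ * ∑ j, (y j - y0 j) ^ 2 := by
    intro y hy
    have h1 := sum_sq_le hy hy0
    have h2 : κ * ∑ j, (y j - y0 j) ^ 2 ≤ κ * (d + 1) :=
      mul_le_mul_of_nonneg_left (by linarith) hκ0.le
    have h3 : κ * (d + 1) = 1 := by rw [hκ]; field_simp
    linarith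
  have hpk0 : ∀ m, ∀ y ∈ cube d, 0 ≤ pk κ y0 m y := fun m y hy => pow_nonneg (hq0 y hy) m
  -- the set near `y0`
  set U : Set (Fin d → ℝ) := cube d ∩ {y | ∑ j, (y j - y0 j) ^ 2 ≤ r ^ 2 / 4} with hU
  have hKc : IsCompact (cube d) := by rw [cube_eq]; exact isCompact_Icc
  have hUm : MeasurableSet U := by
    refine hKc.measurableSet.inter (IsClosed.measurableSet ?_)
    exact isClosed_le (by fun_prop) continuous_const
  have hcubefin : volume (cube d) ≠ ⊤ := hKc.measure_lt_top.ne
  have hUfin : volume U ≠ ⊤ := ((measure_mono inter_subset_left).trans_lt hKc.measure_lt_top).ne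
  have hUpos : 0 < (volume U).toReal := by
    refine ENNReal.toReal_pos ?_ hUfin
    have hV : IsOpen ({y : Fin d → ℝ | ∑ j, (y j - y0 j) ^ 2 < r ^ 2 / 4} ∩ interior (cube d)) :=
      (isOpen_lt (by fun_prop) continuous_const).inter isOpen_interior
    have hne : ({y : Fin d → ℝ | ∑ j, (y j - y0 j) ^ 2 < r ^ 2 / 4}
        ∩ interior (cube d)).Nonempty := by
      have h1 : y0 ∈ closure (interior (cube d)) := by rw [closure_interior_cube]; exact hy0
      rw [mem_closure_iff] at h1
      refine h1 _ (isOpen_lt (by fun_prop) continuous_const) ?_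
      simp only [sub_self, mem_ofPred_eq]
      norm_num
      positivity
    have h2 := hV.measure_pos volume hne
    refine (lt_of_lt_of_le h2 (measure_mono ?_)).ne'
    rintro y ⟨h3, h4⟩
    refine ⟨interior_subset h4, ?_⟩
    rw [mem_ofPred_eq] at h3 ⊢
    exact h3.le
  set A : ℝ := ∑ s, |c s| * (volume (corner d 1)).toReal with hA
  have hA0 : 0 ≤ A := Finset.sum_nonneg fun s _ => by positivity
  have hbody : ∀ s, ∀ x ∈ corner d 1, par (L s) x ∈ body (L s) := by
    intro s x hx
    rw [body_eq_par]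
    exact mem_image_of_mem _ hx
  have key : ∀ m : ℕ, β ^ m * (volume U).toReal ≤ A * α ^ m := by
    intro m
    have h1 : β ^ m * (volume U).toReal ≤ ∫ y in cube d, pk κ y0 m y := by
      have hi : IntegrableOn (pk κ y0 m) (cube d) :=
        (continuous_pk κ y0 m).continuousOn.integrableOn_compact hKc
      calc β ^ m * (volume U).toReal = ∫ _y in U, β ^ m := by
            rw [setIntegral_const, smul_eq_mul, mul_comm]; rfl
        _ ≤ ∫ y in U, pk κ y0 m y := by
            refine setIntegral_mono_on (integrableOn_const hUfin)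
              (hi.mono_set inter_subset_left) hUm fun y hy => ?_
            refine pow_le_pow_left₀ hβ0.le ?_ m
            have := mul_le_mul_of_nonneg_left hy.2 hκ0.le
            rw [hβ]
            linarith
        _ ≤ ∫ y in cube d, pk κ y0 m y := by
            refine setIntegral_mono_set hi ?_ inter_subset_left.eventuallyLE
            exact (ae_restrict_iff' hKc.measurableSet).2 (Eventually.of_forall fun y hy =>
              hpk0 m y hy)
    have h2 := identity hd hs κ y0 m
    have h3 : (∑ s, c s * ∫ x in corner d 1, pk κ y0 m (par (L s) x)) ≤ A * α ^ m := by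
      rw [hA, Finset.sum_mul]
      refine Finset.sum_le_sum fun s _ => ?_
      have hci : IntegrableOn (fun x => pk κ y0 m (par (L s) x)) (corner d 1) :=
        ((continuous_pk κ y0 m).comp (continuous_par (L s))).continuousOn.integrableOn_compact
          (isCompact_corner d)
      rcases lt_or_ge 0 (c s) with hpos | hneg
      · rw [abs_of_pos hpos, mul_assoc (c s)]
        refine mul_le_mul_of_nonneg_left ?_ hpos.le
        calc ∫ x in corner d 1, pk κ y0 m (par (L s) x) ≤ ∫ _x in corner d 1, α ^ m := by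
              refine setIntegral_mono_on hci
                (integrableOn_const (isCompact_corner d).measure_lt_top.ne)
                (measurableSet_corner d 1) fun x hx => ?_
              refine pow_le_pow_left₀ (hq0 _ (body_subset_cube (hL s) (hbody s x hx))) ?_ m
              have := mul_le_mul_of_nonneg_left (hr s hpos _ (hbody s x hx)) hκ0.le
              rw [hα]
              linarith
          _ = (volume (corner d 1)).toReal * α ^ m := by
              rw [setIntegral_const, smul_eq_mul]; rfl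
      · have h4 : 0 ≤ ∫ x in corner d 1, pk κ y0 m (par (L s) x) :=
          setIntegral_nonneg (measurableSet_corner d 1) fun x hx =>
            hpk0 m _ (body_subset_cube (hL s) (hbody s x hx))
        have h5 : c s * ∫ x in corner d 1, pk κ y0 m (par (L s) x) ≤ 0 :=
          mul_nonpos_of_nonpos_of_nonneg hneg h4
        have h6 : 0 ≤ |c s| * (volume (corner d 1)).toReal * α ^ m := by positivity
        linarith
    calc β ^ m * (volume U).toReal ≤ ∫ y in cube d, pk κ y0 m y := h1
      _ = ∑ s, c s * ∫ x in corner d 1, pk κ y0 m (par (L s) x) := h2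
      _ ≤ A * α ^ m := h3
  have hratio : α / β < 1 := (div_lt_one hβ0).mpr hαβ
  obtain ⟨m, hm⟩ := exists_pow_lt_of_lt_one (show 0 < (volume U).toReal / (A + 1) by positivity)
    hratio
  have h1 := key m
  rw [div_pow, div_lt_div_iff₀ (pow_pos hβ0 m) (by positivity)] at hm
  have h2 : 0 ≤ α ^ m := pow_nonneg hα0 m
  nlinarith

/-- cover by the positively oriented images -/
theorem cover_of_small {N : ℕ} {W L : Fin N → Fin (d+1) → Fin d → ℝ} (hL : ∀ s, InUnit (L s))
    (hd : ∀ s, (edge (W s)).det ≠ 0) (hs : Small W L) :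
    ∃ N' ≤ N, ∃ W' : Fin N' → Fin (d+1) → Fin d → ℝ, IsCover W' ∧ ∀ k, ∃ s, W' k = L s := by
  classical
  set I : Finset (Fin N) := Finset.univ.filter fun s => 0 < sg (W s) * (edge (L s)).det with hI
  have hcard : I.card ≤ N := by
    have := Finset.card_le_univ I
    simpa using this
  refine ⟨I.card, hcard, fun k => L (I.equivFin.symm k), ⟨fun k => ?_, ?_⟩, fun k => ⟨_, rfl⟩⟩
  · have h1 := (Finset.mem_filter.mp (I.equivFin.symm k).2)
    refine affineIndependent_of_det ?_
    rw [det_bord]
    intro h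
    rw [h, mul_zero] at h1
    exact lt_irrefl _ h1.2
  · refine Subset.antisymm (iUnion_subset fun k => body_subset_cube (hL _)) fun y0 hy0 => ?_
    obtain ⟨s, h1, h2⟩ := covered hL hd hs hy0
    have h3 : s ∈ I := by rw [hI, Finset.mem_filter]; exact ⟨Finset.mem_univ _, h1⟩
    rw [mem_iUnion]
    refine ⟨I.equivFin ⟨s, h3⟩, ?_⟩
    simpa using h2

end Helper51.BS
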