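import Pool.Agent.Helper67.CubeTri

/-!
# From a triangulation of the cube to a cover by vertex simplices: definitions
-/

set_option autoImplicit false

namespace Helper51.BS

open Helper67.Cube

variable {d : ℕ}

/-- label of a point of the cube: the vertex of the cube with coordinate `1` exactly where the
point has coordinate `1` -/
noncomputable def lab (v : Fin d → ℝ) : Fin d → ℝ := fun j => if v j = 1 then 1 else 0

/-- `x` and `z` have the same barycentric coordinates with respect to `w` and `l` -/
def Gr (w l : Fin (d+1) → Fin d → ℝ) (x z : Fin d → ℝ) : Prop :=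
  ∃ c : Fin (d+1) → ℝ, (∀ i, 0 ≤ c i) ∧ ∑ i, c i = 1 ∧ ∑ i, c i • w i = x ∧ ∑ i, c i • l i = z

/-- parametrization of a simplex by the corner -/
def par (w : Fin (d+1) → Fin d → ℝ) (s : Fin d → ℝ) : Fin d → ℝ :=
  w 0 + ∑ i : Fin d, s i • (w i.succ - w 0)

/-- the simplex at time `t` on the way from `w` to `l` -/
def mv (w l : Fin (d+1) → Fin d → ℝ) (t : ℝ) : Fin (d+1) → Fin d → ℝ :=
  fun i => w i + t • (l i - w i)

end Helper51.BS
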