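import Pool.Agent.Helper51.BS.Poly

/-!
# The integral identity at time one
-/

set_option autoImplicit false

open MeasureTheory Set Helper67.Cube Filter Topology

namespace Helper51.BS

variable {d : ℕ}

/-- sign of the orientation -/
noncomputable def sg (w : Fin (d+1) → Fin d → ℝ) : ℝ := if 0 < (edge w).det then 1 else -1

lemma sg_mul {w : Fin (d+1) → Fin d → ℝ} : sg w * (edge w).det = |(edge w).det| := by
  unfold sg
  split_ifs with h
  · rw [one_mul, abs_of_pos h]
  · rw [abs_of_nonpos (not_lt.mp h), neg_one_mul]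

lemma abs_sg_mul (w : Fin (d+1) → Fin d → ℝ) (x : ℝ) : |sg w * x| = |x| := by
  unfold sg
  split_ifs with h
  · rw [one_mul]
  · rw [neg_one_mul, abs_neg]

lemma mv_zero (w l : Fin (d+1) → Fin d → ℝ) : mv w l 0 = w := by
  funext i; simp [mv]

lemma mv_one (w l : Fin (d+1) → Fin d → ℝ) : mv w l 1 = l := by
  funext i; simp [mv]

/-- the family moves through coverings of the cube without overlaps for small times -/
def Small {N : ℕ} (W L : Fin N → Fin (d+1) → Fin d → ℝ) : Prop :=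
  ∃ ε > 0, ∀ t : ℝ, 0 < t → t < ε → (⋃ s, body (mv (W s) (L s) t)) = cube d ∧
    ∀ s s', s ≠ s' → volume (body (mv (W s) (L s) t) ∩ body (mv (W s') (L s') t)) = 0

theorem identity {N : ℕ} {W L : Fin N → Fin (d+1) → Fin d → ℝ}
    (hd : ∀ s, (edge (W s)).det ≠ 0) (hs : Small W L) (κ : ℝ) (y0 : Fin d → ℝ) (m : ℕ) :
    ∫ y in cube d, pk κ y0 m y = ∑ s, sg (W s) * (edge (L s)).det *
      ∫ x in corner d 1, pk κ y0 m (par (L s) x) := by
  choose pd hpd using fun s => exists_det_poly (W s) (L s)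
  choose pi hpi using fun s => exists_pk_poly κ y0 m (W s) (L s)
  obtain ⟨ε, hε, hs⟩ := hs
  set R : Polynomial ℝ := (∑ s, Polynomial.C (sg (W s)) * pd s * pi s)
    - Polynomial.C (∫ y in cube d, pk κ y0 m y) with hR
  have hRe : ∀ t, R.eval t = (∑ s, sg (W s) * (edge (mv (W s) (L s) t)).det *
      ∫ x in corner d 1, pk κ y0 m (par (mv (W s) (L s) t) x)) - ∫ y in cube d, pk κ y0 m y := by
    intro t
    rw [hR, Polynomial.eval_sub, Polynomial.eval_finsetSum, Polynomial.eval_C]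
    congr 1
    refine Finset.sum_congr rfl fun s _ => ?_
    rw [Polynomial.eval_mul, Polynomial.eval_mul, Polynomial.eval_C, hpd, hpi]
  have h1 : ∀ᶠ t in 𝓝 (0 : ℝ), ∀ s, 0 < sg (W s) * (pd s).eval t := by
    rw [eventually_all]
    intro s
    have h2 : Tendsto (fun t => sg (W s) * (pd s).eval t) (𝓝 0)
        (𝓝 (sg (W s) * (pd s).eval 0)) :=
      ((pd s).continuous.tendsto 0).const_mul _
    refine h2.eventually (lt_mem_nhds ?_)
    rw [hpd, mv_zero, sg_mul]
    exact abs_pos.mpr (hd s)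
  have h3 : ∀ᶠ t in 𝓝[>] (0 : ℝ), R.eval t = 0 := by
    have h4 : ∀ᶠ t in 𝓝[>] (0 : ℝ), t ∈ Ioo 0 ε := Ioo_mem_nhdsGT hε
    filter_upwards [h4, h1.filter_mono nhdsWithin_le_nhds] with t ht ht1
    obtain ⟨hU, h0⟩ := hs t ht.1 ht.2
    have hd' : ∀ s, (edge (mv (W s) (L s) t)).det ≠ 0 := by
      intro s h
      have := ht1 s
      rw [hpd, h, mul_zero] at this
      exact lt_irrefl _ this
    rw [hRe, integral_cube hU h0 hd' (continuous_pk κ y0 m), sub_eq_zero]
    refine Finset.sum_congr rfl fun s _ => ?_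
    congr 1
    have h5 := ht1 s
    rw [hpd] at h5
    rw [← abs_of_pos h5, abs_sg_mul]
  have hR0 : R = 0 := by
    refine Polynomial.eq_zero_of_infinite_isRoot R ?_
    obtain ⟨δ, hδ, hsub⟩ := mem_nhdsGT_iff_exists_Ioo_subset.mp h3
    exact (Ioo_infinite hδ).mono hsub
  have h6 := hRe 1
  rw [hR0, Polynomial.eval_zero] at h6
  simp only [mv_one] at h6
  linarith

end Helper51.BS
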