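import Pool.Agent.Helper51.BS.Defs

/-!
# Integrals over moving simplices are polynomials in the time
-/

set_option autoImplicit false

open MeasureTheory Set Helper67.Cube

namespace Helper51.BS

variable {d : ℕ}

lemma isCompact_corner (d : ℕ) : IsCompact (corner d 1) := by
  refine Metric.isCompact_of_isClosed_isBounded ?_ ?_
  · have h1 : IsClosed {x : Fin d → ℝ | ∀ i, 0 ≤ x i} := by
      have : {x : Fin d → ℝ | ∀ i, 0 ≤ x i} = ⋂ i, {x | 0 ≤ x i} := by ext; simp
      rw [this]
      exact isClosed_iInter fun i => isClosed_le continuous_const (continuous_apply i)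
    have h2 : IsClosed {x : Fin d → ℝ | ∑ i, x i ≤ 1} :=
      isClosed_le (by fun_prop) continuous_const
    exact h1.inter h2
  · refine (Metric.isBounded_Icc (0 : Fin d → ℝ) 1).subset ?_
    rintro x ⟨h0, h1⟩
    refine ⟨fun i => h0 i, fun i => le_trans ?_ h1⟩
    exact Finset.single_le_sum (f := x) (fun j _ => h0 j) (Finset.mem_univ i)

lemma par_eq (w : Fin (d+1) → Fin d → ℝ) (s : Fin d → ℝ) :
    par w s = w 0 + Matrix.toLin' (edge w).transpose s := by
  ext j
  simp only [par, Matrix.toLin'_apply, Pi.add_apply, Matrix.mulVec, dotProduct, edge,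
    Matrix.transpose_apply, Matrix.of_apply, Finset.sum_apply, Pi.smul_apply, smul_eq_mul,
    Pi.sub_apply]
  congr 1
  exact Finset.sum_congr rfl fun i _ => by ring

lemma body_eq_par (w : Fin (d+1) → Fin d → ℝ) : body w = par w '' corner d 1 := by
  rw [body_eq_image, image_image]
  exact image_congr fun s _ => (par_eq w s).symm

lemma par_mv (w l : Fin (d+1) → Fin d → ℝ) (t : ℝ) (s : Fin d → ℝ) (j : Fin d) :
    par (mv w l t) s j = par w s j + t * (par l s j - par w s j) := by
  simp only [par, mv, Pi.add_apply, Finset.sum_apply, Pi.smul_apply, smul_eq_mul, Pi.sub_apply]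
  have h : ∑ i : Fin d, s i * (w i.succ j + t * (l i.succ j - w i.succ j) - (w 0 j + t * (l 0 j - w 0 j)))
      = ∑ i : Fin d, s i * (w i.succ j - w 0 j)
        + t * (∑ i : Fin d, s i * (l i.succ j - l 0 j) - ∑ i : Fin d, s i * (w i.succ j - w 0 j)) := by
    rw [← Finset.sum_sub_distrib, Finset.mul_sum, ← Finset.sum_add_distrib]
    exact Finset.sum_congr rfl fun i _ => by ring
  rw [h]
  ring

lemma edge_mv (w l : Fin (d+1) → Fin d → ℝ) (t : ℝ) (i j : Fin d) :
    edge (mv w l t) i j = edge w i j + t * (edge l i j - edge w i j) := by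
  simp only [edge, mv, Matrix.of_apply, Pi.add_apply, Pi.smul_apply, smul_eq_mul, Pi.sub_apply]
  ring

lemma continuous_par (w : Fin (d+1) → Fin d → ℝ) : Continuous (par w) := by
  unfold par
  fun_prop

lemma integral_body {w : Fin (d+1) → Fin d → ℝ} (hw : (edge w).det ≠ 0)
    (φ : (Fin d → ℝ) → ℝ) :
    ∫ y in body w, φ y = |(edge w).det| * ∫ s in corner d 1, φ (par w s) := by
  have hd : ∀ s ∈ corner d 1, HasFDerivWithinAt (par w)
      (LinearMap.toContinuousLinearMap (Matrix.toLin' (edge w).transpose)) (corner d 1) s := by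
    intro s _
    have h1 : par w = fun s => w 0 + LinearMap.toContinuousLinearMap
        (Matrix.toLin' (edge w).transpose) s := by
      funext s
      exact par_eq w s
    rw [h1]
    exact ((ContinuousLinearMap.hasFDerivAt _).const_add _).hasFDerivWithinAt
  have hinj : InjOn (par w) (corner d 1) := by
    intro s _ s' _ h
    rw [par_eq, par_eq] at h
    have h1 := add_left_cancel h
    simp only [Matrix.toLin'_apply] at h1
    have hu : IsUnit (edge w).transpose := by
      rw [Matrix.isUnit_iff_isUnit_det, Matrix.det_transpose]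
      exact hw.isUnit
    exact Matrix.mulVec_injective_of_isUnit hu h1
  rw [body_eq_par, integral_image_eq_integral_abs_det_fderiv_smul volume
    (measurableSet_corner d 1) hd hinj]
  have h2 : (LinearMap.toContinuousLinearMap (Matrix.toLin' (edge w).transpose)).det
      = (edge w).det := by
    rw [ContinuousLinearMap.det, LinearMap.coe_toContinuousLinearMap, LinearMap.det_toLin',
      Matrix.det_transpose]
  rw [h2]
  simp only [smul_eq_mul]
  rw [integral_const_mul]

lemma integral_cube {N : ℕ} {V : Fin N → Fin (d+1) → Fin d → ℝ}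
    (hU : (⋃ s, body (V s)) = cube d)
    (h0 : ∀ s s', s ≠ s' → volume (body (V s) ∩ body (V s')) = 0)
    (hd : ∀ s, (edge (V s)).det ≠ 0) {φ : (Fin d → ℝ) → ℝ} (hφ : Continuous φ) :
    ∫ y in cube d, φ y
      = ∑ s, |(edge (V s)).det| * ∫ x in corner d 1, φ (par (V s) x) := by
  have hK : IsCompact (cube d) := by rw [cube_eq]; exact isCompact_Icc
  rw [← hU, integral_iUnion_ae (fun s => (isClosed_body (V s)).measurableSet.nullMeasurableSet)
    (fun s s' hss => h0 s s' hss) (by rw [hU]; exact hφ.continuousOn.integrableOn_compact hK),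
    tsum_fintype]
  exact Finset.sum_congr rfl fun s _ => integral_body (hd s) φ

/-- polynomials with coefficients in the continuous functions -/
lemma exists_int_poly (P : Polynomial C(Fin d → ℝ, ℝ)) : ∃ p : Polynomial ℝ, ∀ t : ℝ,
    p.eval t = ∫ s in corner d 1, (P.eval (ContinuousMap.const _ t)) s := by
  have hint : ∀ a : C(Fin d → ℝ, ℝ), IntegrableOn (fun s => a s) (corner d 1) := fun a =>
    a.continuous.continuousOn.integrableOn_compact (isCompact_corner d)
  induction P using Polynomial.induction_on' with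
  | add P Q hP hQ =>
    obtain ⟨p, hp⟩ := hP
    obtain ⟨q, hq⟩ := hQ
    refine ⟨p + q, fun t => ?_⟩
    rw [Polynomial.eval_add, hp, hq, Polynomial.eval_add, ← integral_add (hint _) (hint _)]
    rfl
  | monomial n a =>
    refine ⟨Polynomial.monomial n (∫ s in corner d 1, a s), fun t => ?_⟩
    rw [Polynomial.eval_monomial, Polynomial.eval_monomial, ← integral_mul_const]
    simp

lemma exists_det_poly (w l : Fin (d+1) → Fin d → ℝ) : ∃ p : Polynomial ℝ, ∀ t : ℝ,
    p.eval t = (edge (mv w l t)).det := by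
  refine ⟨(Matrix.of fun i j : Fin d => Polynomial.C (edge w i j)
    + Polynomial.X * Polynomial.C (edge l i j - edge w i j)).det, fun t => ?_⟩
  rw [← Polynomial.coe_evalRingHom, RingHom.map_det]
  congr 1
  ext i j
  rw [edge_mv]
  simp

/-- the peak function at `y0` -/
noncomputable def pk (κ : ℝ) (y0 : Fin d → ℝ) (m : ℕ) (y : Fin d → ℝ) : ℝ :=
  (1 - κ * ∑ j, (y j - y0 j) ^ 2) ^ m

lemma continuous_pk (κ : ℝ) (y0 : Fin d → ℝ) (m : ℕ) : Continuous (pk κ y0 m) := by
  unfold pk
  fun_prop

lemma exists_pk_poly (κ : ℝ) (y0 : Fin d → ℝ) (m : ℕ) (w l : Fin (d+1) → Fin d → ℝ) :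
    ∃ p : Polynomial ℝ, ∀ t : ℝ, p.eval t
      = ∫ s in corner d 1, pk κ y0 m (par (mv w l t) s) := by
  obtain ⟨p, hp⟩ := exists_int_poly (d := d)
    ((1 - Polynomial.C (ContinuousMap.const _ κ) * ∑ j : Fin d,
      (Polynomial.C (⟨fun s => par w s j - y0 j, by
          have := continuous_par w; fun_prop⟩ : C(Fin d → ℝ, ℝ))
        + Polynomial.X * Polynomial.C (⟨fun s => par l s j - par w s j, by
          have := continuous_par w; have := continuous_par l; fun_prop⟩ :
            C(Fin d → ℝ, ℝ))) ^ 2) ^ m)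
  refine ⟨p, fun t => ?_⟩
  rw [hp]
  congr 1
  ext s
  unfold pk
  simp only [Polynomial.eval_pow, Polynomial.eval_sub, Polynomial.eval_one, Polynomial.eval_mul,
    Polynomial.eval_C, Polynomial.eval_finsetSum, Polynomial.eval_add, Polynomial.eval_X,
    ContinuousMap.coe_pow, ContinuousMap.coe_sub, ContinuousMap.coe_one, ContinuousMap.coe_mul,
    ContinuousMap.coe_sum, ContinuousMap.coe_add, Pi.pow_apply, Pi.sub_apply, Pi.one_apply,
    Pi.mul_apply, Finset.sum_apply, Pi.add_apply, ContinuousMap.coe_mk, ContinuousMap.const_apply,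
    par_mv]
  congr 3
  exact Finset.sum_congr rfl fun j _ => by ring

end Helper51.BS
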